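import Pool.Agent.H.MP_e2feb3_nt.Defs

set_option autoImplicit false

namespace Pool.Agent.H.MP_e2feb3_nt

open Real

/-- backward sequence -/
def B (n m : ℤ) : ℕ → ℤ
  | 0 => m
  | 1 => n
  | j + 2 => B n m j - B n m (j + 1)

lemma B_shift (n m : ℤ) : ∀ j, B (m - n) n j = B n m (j + 1) := by
  intro j
  induction j using Nat.strong_induction_on with
  | _ j ih =>
    match j with
    | 0 => rfl
    | 1 => rfl
    | j + 2 =>
      rw [B, ih j (by omega), ih (j + 1) (by omega)]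
      rfl

/-- a walk with positive start hits `n` at `s` and `m` at `s+1` -/
def Good (n m : ℤ) (s : ℕ) : Prop :=
  ∃ a b : ℕ, 1 ≤ a ∧ 1 ≤ b ∧ (walk a b s : ℤ) = n ∧ (walk a b (s + 1) : ℤ) = m

lemma walk_pos (a b : ℕ) (ha : 1 ≤ a) (hb : 1 ≤ b) : ∀ k, k ≤ walk a b (k + 1) ∧ 1 ≤ walk a b (k + 1) := by
  intro k
  induction k using Nat.strong_induction_on with
  | _ k ih =>
    match k with
    | 0 => exact ⟨Nat.zero_le _, ha⟩
    | 1 => exact ⟨hb, hb⟩
    | k + 2 =>
      have h1 := ih k (by omega)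
      have h2 := ih (k + 1) (by omega)
      have e : walk a b (k + 2 + 1) = walk a b (k + 1 + 1) + walk a b (k + 1) := rfl
      omega

lemma good_iff (s : ℕ) : ∀ n m : ℤ, Good n m (s + 1) ↔ ∀ j, j ≤ s + 1 → 0 < B n m j := by
  induction s with
  | zero =>
    intro n m
    constructor
    · rintro ⟨a, b, ha, hb, h1, h2⟩ j hj
      simp only [walk] at h1 h2
      interval_cases j
      · simp only [B]; omega
      · simp only [B]; omega
    · intro h
      have h0 : 0 < m := h 0 (by omega)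
      have h1 : 0 < n := h 1 (by omega)
      refine ⟨n.toNat, m.toNat, by omega, by omega, ?_, ?_⟩ <;> simp only [walk] <;> omega
  | succ s ih =>
    intro n m
    constructor
    · rintro ⟨a, b, ha, hb, h1, h2⟩
      have hg : Good (m - n) n (s + 1) := by
        refine ⟨a, b, ha, hb, ?_, h1⟩
        rw [show s + 1 + 1 + 1 = s + 3 by ring, walk] at h2
        push_cast at h2
        rw [← h2, ← h1]; ring
      have h3 := (ih _ _).1 hg
      intro j hj
      cases j with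
      | zero =>
        have := (walk_pos a b ha hb (s + 2)).2
        simp only [B]
        have e : s + 1 + 1 + 1 = s + 2 + 1 := by ring
        rw [e] at h2
        omega
      | succ j => rw [← B_shift]; exact h3 j (by omega)
    · intro h
      obtain ⟨a, b, ha, hb, h1, h2⟩ := (ih (m - n) n).2 fun j hj => by
        rw [B_shift]; exact h (j + 1) (by omega)
      refine ⟨a, b, ha, hb, h2, ?_⟩
      rw [show s + 1 + 1 + 1 = s + 3 by ring, walk]
      push_cast
      rw [h1, h2]; ring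

/-- `1/φ` -/
noncomputable def om : ℝ := goldenRatio - 1

lemma phi_lo : (1.618 : ℝ) < goldenRatio := by
  have : (2.236 : ℝ) < √5 := by
    rw [Real.lt_sqrt (by norm_num)]; norm_num
  unfold goldenRatio; linarith

lemma phi_hi : goldenRatio < (1.6181 : ℝ) := by
  have : √5 < (2.2362 : ℝ) := by
    rw [Real.sqrt_lt' (by norm_num)]; norm_num
  unfold goldenRatio; linarith

lemma om_pos : 0 < om := by unfold om; linarith [phi_lo]

lemma om_sq : om ^ 2 = 1 - om := by
  unfold om; nlinarith [goldenRatio_sq]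

lemma om_lo : (0.618 : ℝ) < om := by unfold om; linarith [phi_lo]
lemma om_hi : om < (0.6181 : ℝ) := by unfold om; linarith [phi_hi]

lemma B_real (n m : ℤ) (i : ℕ) :
    (B n m (2 * i + 1) : ℝ) = n * om ^ (2 * i) - Nat.fib (2 * i) * (m - goldenRatio * n) ∧
    (B n m (2 * i + 2) : ℝ) = n * om ^ (2 * i + 1) + Nat.fib (2 * i + 1) * (m - goldenRatio * n) := by
  induction i with
  | zero => simp [B, om]; ring
  | succ i ih =>
    obtain ⟨h1, h2⟩ := ih
    have p1 : om ^ (2 * (i + 1)) = om ^ (2 * i) - om ^ (2 * i + 1) := by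
      rw [show 2 * (i + 1) = 2 * i + 2 by ring, pow_add, om_sq, pow_succ]; ring
    have p2 : om ^ (2 * (i + 1) + 1) = om ^ (2 * i + 1) - om ^ (2 * (i + 1)) := by
      rw [show 2 * (i + 1) + 1 = 2 * i + 1 + 2 by ring, pow_add, om_sq,
        show 2 * (i + 1) = 2 * i + 1 + 1 by ring, pow_succ om (2 * i + 1)]; ring
    have f1 : (Nat.fib (2 * (i + 1)) : ℝ) = Nat.fib (2 * i) + Nat.fib (2 * i + 1) := by
      rw [show 2 * (i + 1) = 2 * i + 2 by ring, Nat.fib_add_two]; push_cast; ring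
    have f2 : (Nat.fib (2 * (i + 1) + 1) : ℝ) = Nat.fib (2 * i + 1) + Nat.fib (2 * (i + 1)) := by
      rw [show 2 * (i + 1) + 1 = 2 * i + 1 + 2 by ring, Nat.fib_add_two,
        show 2 * i + 1 + 1 = 2 * (i + 1) by ring]; push_cast; ring
    have e1 : (B n m (2 * (i + 1) + 1) : ℝ) = B n m (2 * i + 1) - B n m (2 * i + 2) := by
      rw [show 2 * (i + 1) + 1 = 2 * i + 1 + 2 by ring, B]; push_cast; ring
    have e2 : (B n m (2 * (i + 1) + 2) : ℝ) = B n m (2 * i + 2) - B n m (2 * (i + 1) + 1) := by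
      rw [B, show 2 * (i + 1) = 2 * i + 2 by ring]; push_cast; ring
    have g1 : (B n m (2 * (i + 1) + 1) : ℝ)
        = n * om ^ (2 * (i + 1)) - Nat.fib (2 * (i + 1)) * (m - goldenRatio * n) := by
      rw [e1, h1, h2, p1, f1]; ring
    refine ⟨g1, ?_⟩
    rw [e2, g1, h2, p2, f2]; ring

/-- floor of `φ n` -/
noncomputable def F (n : ℕ) : ℤ := ⌊goldenRatio * (n : ℝ)⌋

/-- fractional part of `φ n` -/
noncomputable def X (n : ℕ) : ℝ := goldenRatio * (n : ℝ) - F n

lemma X_nonneg (n : ℕ) : 0 ≤ X n := sub_nonneg.2 (Int.floor_le _)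
lemma X_lt (n : ℕ) : X n < 1 := by
  have := Int.lt_floor_add_one (goldenRatio * (n : ℝ))
  unfold X F; linarith

lemma ceil_eq (n : ℕ) (hn : 1 ≤ n) : ⌈goldenRatio * (n : ℝ)⌉ = F n + 1 := by
  rw [Int.ceil_eq_iff]
  have h1 := X_nonneg n
  have h2 := X_lt n
  have hi : Irrational (goldenRatio * (n : ℝ)) :=
    goldenRatio_irrational.mul_natCast (by omega)
  have h3 : goldenRatio * (n : ℝ) ≠ (F n : ℝ) := hi.ne_int _
  unfold X at h1 h2
  push_cast
  constructor
  · have := lt_of_le_of_ne (by linarith : (F n : ℝ) ≤ goldenRatio * n) h3.symm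
    linarith
  · linarith

lemma odd_pos (n : ℕ) (hn : 1 ≤ n) (m : ℤ) (hm : m ≤ F n) (i : ℕ) : 0 < B n m (2 * i + 1) := by
  have h := (B_real n m i).1
  have h1 : (m : ℝ) ≤ F n := by exact_mod_cast hm
  have h2 := X_nonneg n
  unfold X at h2
  have h3 : (0 : ℝ) < n := by exact_mod_cast hn
  have h4 : 0 < (n : ℝ) * om ^ (2 * i) := mul_pos h3 (pow_pos om_pos _)
  have h5 : 0 ≤ (Nat.fib (2 * i) : ℝ) * (goldenRatio * n - m) :=
    mul_nonneg (Nat.cast_nonneg _) (by linarith)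
  have : (0 : ℝ) < B n m (2 * i + 1) := by rw [h]; push_cast; linarith
  exact_mod_cast this

lemma even_pos (n : ℕ) (hn : 1 ≤ n) (m : ℤ) (hm : F n + 1 ≤ m) (i : ℕ) :
    0 < B n m (2 * i + 2) := by
  have h := (B_real n m i).2
  have h1 : (F n : ℝ) + 1 ≤ m := by exact_mod_cast hm
  have h2 := X_lt n
  unfold X at h2
  have h3 : (0 : ℝ) < n := by exact_mod_cast hn
  have h4 : 0 < (n : ℝ) * om ^ (2 * i + 1) := mul_pos h3 (pow_pos om_pos _)
  have h5 : 0 ≤ (Nat.fib (2 * i + 1) : ℝ) * (m - goldenRatio * n) :=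
    mul_nonneg (Nat.cast_nonneg _) (by linarith)
  have : (0 : ℝ) < B n m (2 * i + 2) := by rw [h]; push_cast; linarith
  exact_mod_cast this

lemma even_mono (n m m' : ℤ) (h : m ≤ m') (i : ℕ) : B n m (2 * i + 2) ≤ B n m' (2 * i + 2) := by
  have h1 := (B_real n m i).2
  have h2 := (B_real n m' i).2
  have h3 : (m : ℝ) ≤ m' := by exact_mod_cast h
  have h5 : 0 ≤ (Nat.fib (2 * i + 1) : ℝ) * (m' - m) :=
    mul_nonneg (Nat.cast_nonneg _) (by linarith)
  have : (B n m (2 * i + 2) : ℝ) ≤ B n m' (2 * i + 2) := by rw [h1, h2]; linarith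
  exact_mod_cast this

lemma odd_anti (n m m' : ℤ) (h : m ≤ m') (i : ℕ) : B n m' (2 * i + 1) ≤ B n m (2 * i + 1) := by
  have h1 := (B_real n m i).1
  have h2 := (B_real n m' i).1
  have h3 : (m : ℝ) ≤ m' := by exact_mod_cast h
  have h5 : 0 ≤ (Nat.fib (2 * i) : ℝ) * (m' - m) :=
    mul_nonneg (Nat.cast_nonneg _) (by linarith)
  have : (B n m' (2 * i + 1) : ℝ) ≤ B n m (2 * i + 1) := by rw [h1, h2]; linarith
  exact_mod_cast this

lemma F_ge (n : ℕ) : (n : ℤ) ≤ F n := by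
  unfold F
  rw [Int.le_floor]
  have := phi_lo
  have h : (0 : ℝ) ≤ n := Nat.cast_nonneg _
  push_cast; nlinarith

lemma idx_cases (j : ℕ) : j = 0 ∨ (∃ i, j = 2 * i + 1) ∨ ∃ i, j = 2 * i + 2 := by
  rcases Nat.even_or_odd' j with ⟨i, h | h⟩
  · cases i with
    | zero => left; omega
    | succ i => right; right; exact ⟨i, by omega⟩
  · right; left; exact ⟨i, h⟩

lemma good_cases (n : ℕ) (hn : 1 ≤ n) (m : ℤ) (s : ℕ) (h : ∀ j, j ≤ s → 0 < B n m j) :
    (∀ j, j ≤ s → 0 < B n (F n) j) ∨ (∀ j, j ≤ s → 0 < B n (F n + 1) j) := by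
  have hF := F_ge n
  rcases le_or_gt m (F n) with hm | hm
  · left
    intro j hj
    rcases idx_cases j with rfl | ⟨i, rfl⟩ | ⟨i, rfl⟩
    · simp only [B]; omega
    · exact odd_pos n hn _ le_rfl i
    · exact lt_of_lt_of_le (h _ hj) (even_mono _ _ _ hm i)
  · right
    intro j hj
    rcases idx_cases j with rfl | ⟨i, rfl⟩ | ⟨i, rfl⟩
    · simp only [B]; omega
    · exact lt_of_lt_of_le (h _ hj) (odd_anti _ _ _ (by omega) i)
    · exact even_pos n hn _ le_rfl i

lemma even_down (n : ℕ) (hn : 1 ≤ n) (i : ℕ) (h : 0 < B n (F n) (2 * i + 2)) :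
    ∀ j, j ≤ 2 * i + 3 → 0 < B n (F n) j := by
  have hF := F_ge n
  induction i with
  | zero =>
    intro j hj
    interval_cases j
    · simp only [B]; omega
    · exact odd_pos n hn _ le_rfl 0
    · exact h
    · exact odd_pos n hn _ le_rfl 1
  | succ i ih =>
    have h1 := odd_pos n hn _ le_rfl (i + 1)
    have h2 : B n (F n) (2 * (i + 1) + 2) = B n (F n) (2 * i + 2) - B n (F n) (2 * (i + 1) + 1) := by
      rw [B, show 2 * (i + 1) = 2 * i + 2 by ring]
    have h3 := ih (by omega)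
    intro j hj
    by_cases c1 : j ≤ 2 * i + 3
    · exact h3 j c1
    by_cases c2 : j = 2 * (i + 1) + 2
    · rw [c2]; exact h
    · rw [show j = 2 * (i + 2) + 1 by omega]; exact odd_pos n hn _ le_rfl _

/-- the arithmetic criterion for down-integers -/
def PD (n : ℕ) : Prop := ∃ i, B n (F n + 1) (2 * i + 3) ≤ 0 ∧ 0 < B n (F n) (2 * i + 2)

lemma sMax_spec (n : ℕ) (hn : 1 ≤ n) : ∃ s, sMax n = s + 1 ∧ (∃ m : ℤ, ∀ j, j ≤ s + 1 → 0 < B n m j) ∧
    ∀ (t : ℕ) (m : ℤ), (∀ j, j ≤ t + 1 → 0 < B n m j) → t ≤ s := by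
  set S := {s : ℕ | 1 ≤ s ∧ ∃ a b : ℕ, 1 ≤ a ∧ 1 ≤ b ∧ walk a b s = n} with hS
  have hb : BddAbove S := by
    refine ⟨n + 1, ?_⟩
    rintro s ⟨h1, a, b, ha, hb, h⟩
    obtain ⟨k, rfl⟩ : ∃ k, s = k + 1 := ⟨s - 1, by omega⟩
    have := (walk_pos a b ha hb k).1
    omega
  have hne : S.Nonempty := ⟨1, le_rfl, n, 1, hn, le_rfl, rfl⟩
  have hm : sMax n ∈ S := Nat.sSup_mem hne hb
  obtain ⟨h1, a, b, ha, hb', h⟩ := hm
  obtain ⟨s, hs⟩ : ∃ s, sMax n = s + 1 := ⟨sMax n - 1, by omega⟩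
  refine ⟨s, hs, ⟨(walk a b (s + 1 + 1) : ℤ), (good_iff s _ _).1 ⟨a, b, ha, hb', ?_, rfl⟩⟩, ?_⟩
  · rw [← hs, h]
  · intro t m ht
    obtain ⟨a, b, ha, hb', h1, -⟩ := (good_iff t _ _).2 ht
    have : t + 1 ∈ S := ⟨by omega, a, b, ha, hb', by exact_mod_cast h1⟩
    have := le_csSup hb this
    unfold sMax at hs
    rw [← hS] at hs
    omega

lemma char (n : ℕ) (hn : 2 ≤ n) : (IsDown n ↔ PD n) ∧ (IsUp n ↔ ¬ PD n) := by
  obtain ⟨s, hs, ⟨m, hm⟩, hmax⟩ := sMax_spec n (by omega)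
  have hD : IsDown n ↔ ∀ j, j ≤ s + 1 → 0 < B n (F n) j := by
    rw [← good_iff]
    unfold IsDown Good
    rw [hs]
    constructor
    · rintro ⟨-, a, b, ha, hb, h1, h2⟩
      exact ⟨a, b, ha, hb, by exact_mod_cast h1, h2⟩
    · rintro ⟨a, b, ha, hb, h1, h2⟩
      exact ⟨hn, a, b, ha, hb, by exact_mod_cast h1, h2⟩
  have hU : IsUp n ↔ ∀ j, j ≤ s + 1 → 0 < B n (F n + 1) j := by
    rw [← good_iff]
    unfold IsUp Good
    rw [hs, ceil_eq n (by omega)]
    constructor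
    · rintro ⟨-, a, b, ha, hb, h1, h2⟩
      exact ⟨a, b, ha, hb, by exact_mod_cast h1, h2⟩
    · rintro ⟨a, b, ha, hb, h1, h2⟩
      exact ⟨hn, a, b, ha, hb, by exact_mod_cast h1, h2⟩
  have hc := good_cases n (by omega) m (s + 1) hm
  have h1 : PD n → ¬ ∀ j, j ≤ s + 1 → 0 < B n (F n + 1) j := by
    rintro ⟨i, hi1, hi2⟩ h
    have := hmax (2 * i + 2) _ (even_down n (by omega) i hi2)
    have := h (2 * i + 3) (by omega)
    omega
  have h2 : (∀ j, j ≤ s + 1 → 0 < B n (F n) j) → PD n := by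
    intro h
    have a1 : ¬ 0 < B n (F n) (s + 2) := by
      intro h'
      have := hmax (s + 1) (F n) fun j hj => by
        rcases Nat.lt_or_ge j (s + 2) with c | c
        · exact h j (by omega)
        · rw [show j = s + 2 by omega]; exact h'
      omega
    have a2 : ¬ ∀ j, j ≤ s + 1 + 1 → 0 < B n (F n + 1) j := by
      intro h'
      have := hmax (s + 1) _ h'
      omega
    push Not at a2
    obtain ⟨j, hj, hj2⟩ := a2
    have hF := F_ge n
    rcases idx_cases j with rfl | ⟨i, rfl⟩ | ⟨i, rfl⟩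
    · simp only [B] at hj2; omega
    · cases i with
      | zero => simp only [B] at hj2; omega
      | succ i =>
        refine ⟨i, hj2, h _ ?_⟩
        by_contra hc
        have e : s + 2 = 2 * (i + 1) + 1 := by omega
        rw [e] at a1
        exact a1 (odd_pos n (by omega) _ le_rfl _)
    · exact absurd (even_pos n (by omega) _ le_rfl i) (by omega)
  rw [hD, hU]
  refine ⟨⟨h2, fun h => hc.resolve_right (h1 h)⟩, ⟨fun h h' => h1 h' h, fun h => ?_⟩⟩
  exact hc.resolve_left fun h' => h (h2 h')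

end Pool.Agent.H.MP_e2feb3_nt
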