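import Pool.Agent.H.MP_e2feb3_nt.A

set_option autoImplicit false

namespace Pool.Agent.H.MP_e2feb3_nt

open Real

lemma PD_real (n : ℕ) : PD n ↔ ∃ i, (n : ℝ) * om ^ (2 * i + 2) ≤ Nat.fib (2 * i + 2) * (1 - X n) ∧
    Nat.fib (2 * i + 1) * X n < (n : ℝ) * om ^ (2 * i + 1) := by
  unfold PD
  refine exists_congr fun i => and_congr ?_ ?_
  · have h := (B_real n (F n + 1) (i + 1)).1
    rw [show 2 * (i + 1) + 1 = 2 * i + 3 by ring, show 2 * (i + 1) = 2 * i + 2 by ring] at h
    rw [← Int.cast_le (R := ℝ), h]
    unfold X
    push_cast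
    constructor <;> intro h' <;> linarith
  · have h := (B_real n (F n) i).2
    rw [← Int.cast_lt (R := ℝ), h]
    unfold X
    push_cast
    constructor <;> intro h' <;> linarith

lemma psi_eq : goldenConj = -om := by
  unfold om; linarith [goldenRatio_add_goldenConj]

lemma fib_odd (i : ℕ) : (Nat.fib (2 * i + 2) : ℝ) ≤ goldenRatio * Nat.fib (2 * i + 1) := by
  have h := fib_succ_sub_goldenRatio_mul_fib (2 * i + 1)
  rw [psi_eq, Odd.neg_pow ⟨i, rfl⟩] at h
  have := pow_pos om_pos (2 * i + 1)
  linarith

lemma fib_even (i : ℕ) :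
    (Nat.fib (2 * i + 1) : ℝ) = goldenRatio * Nat.fib (2 * i) + om ^ (2 * i) := by
  have h := fib_succ_sub_goldenRatio_mul_fib (2 * i)
  rw [psi_eq, Even.neg_pow ⟨i, by ring⟩] at h
  linarith

lemma R1b (n : ℕ) (h : PD n) : X n < 3 / 4 := by
  obtain ⟨i, h1, h2⟩ := (PD_real n).1 h
  by_contra hc
  push Not at hc
  have f1 := fib_odd i
  have f2 : (0 : ℝ) < Nat.fib (2 * i + 1) := by exact_mod_cast Nat.fib_pos.2 (by omega)
  have f3 : (0 : ℝ) ≤ Nat.fib (2 * i + 2) := Nat.cast_nonneg _
  have o1 := om_lo
  have o2 := phi_hi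
  rw [pow_succ om (2 * i + 1)] at h1
  set e := (n : ℝ) * om ^ (2 * i + 1) with he
  have h1' : e * om ≤ Nat.fib (2 * i + 2) * (1 - X n) := by rw [he]; linarith
  have a1 : (Nat.fib (2 * i + 1) : ℝ) * (3 / 4) < e := by nlinarith
  have a2 : e * om ≤ Nat.fib (2 * i + 2) * (1 / 4) := by nlinarith
  nlinarith

lemma R1a (n : ℕ) (hn : 400 ≤ n) (h : X n ≤ 1 / 4) : PD n := by
  classical
  have hn' : (400 : ℝ) ≤ n := by exact_mod_cast hn
  have o1 := om_lo
  have o2 := om_hi
  have o3 := phi_hi
  have o0 := om_pos
  have hex : ∃ i, (n : ℝ) * om ^ (2 * i + 2) ≤ Nat.fib (2 * i + 2) * (3 / 4) := by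
    refine ⟨n, ?_⟩
    have a1 : om ^ (2 * n + 2) ≤ 1 := pow_le_one₀ o0.le (by linarith)
    have a2 : ((2 * n + 2 : ℕ) : ℝ) ≤ ((Nat.fib (2 * n + 2) + 1 : ℕ) : ℝ) := by
      exact_mod_cast Nat.le_fib_add_one (2 * n + 2)
    push_cast at a2
    nlinarith
  have hs := Nat.find_spec hex
  have hm := fun j => @Nat.find_min _ _ hex j
  generalize Nat.find hex = i at hs hm
  have X0 := X_nonneg n
  rw [PD_real]
  refine ⟨i, ?_, ?_⟩
  · have f3 : (0 : ℝ) ≤ Nat.fib (2 * i + 2) := Nat.cast_nonneg _
    nlinarith
  · match i, hs, hm with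
    | 0, hs, _ =>
      exfalso
      norm_num at hs
      nlinarith
    | 1, hs, _ =>
      exfalso
      have e : Nat.fib (2 * 1 + 2) = 3 := by decide
      rw [e] at hs
      have a : (0.618 : ℝ) ^ (2 * 1 + 2) ≤ om ^ (2 * 1 + 2) := pow_le_pow_left₀ (by norm_num) o1.le _
      norm_num at hs a
      nlinarith
    | j + 2, _, hm =>
      have h1 := hm (j + 1) (by omega)
      push Not at h1
      have f1 := fib_even (j + 2)
      rw [show 2 * (j + 1) + 2 = 2 * (j + 2) by ring] at h1
      have f2 : (3 : ℝ) ≤ Nat.fib (2 * (j + 2)) := by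
        have : Nat.fib 4 ≤ Nat.fib (2 * (j + 2)) := Nat.fib_mono (by omega)
        have e : Nat.fib 4 = 3 := by decide
        rw [e] at this
        exact_mod_cast this
      have f3 : om ^ (2 * (j + 2)) ≤ om ^ 2 := pow_le_pow_of_le_one o0.le (by linarith) (by omega)
      have f4 := om_sq
      have f5 := pow_pos o0 (2 * (j + 2))
      rw [pow_succ om (2 * (j + 2)), f1]
      set e := om ^ (2 * (j + 2))
      set f := (Nat.fib (2 * (j + 2)) : ℝ)
      have b1 : (goldenRatio * f + e) * X n ≤ (goldenRatio * f + e) * (1 / 4) :=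
        mul_le_mul_of_nonneg_left h (by positivity)
      have b2 : f * (3 / 4) * om < n * e * om := mul_lt_mul_of_pos_right h1 o0
      nlinarith

lemma R2 (n n' : ℕ) (hn : 400 ≤ n) (hn' : 400 ≤ n') (h1 : n ≤ n' + 13) (h2 : n' ≤ n + 13)
    (hx : X n' + 1 / 30 ≤ X n) (h : PD n) : PD n' := by
  obtain ⟨i, a1, a2⟩ := (PD_real n).1 h
  have r1 : (400 : ℝ) ≤ n := by exact_mod_cast hn
  have r2 : (400 : ℝ) ≤ n' := by exact_mod_cast hn'
  have r3 : (n : ℝ) ≤ n' + 13 := by exact_mod_cast h1
  have r4 : (n' : ℝ) ≤ n + 13 := by exact_mod_cast h2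
  have X0 := X_nonneg n
  have X1 := X_lt n'
  rw [PD_real]
  refine ⟨i, ?_, ?_⟩
  · have e0 := pow_pos om_pos (2 * i + 2)
    have f0 : (0 : ℝ) ≤ Nat.fib (2 * i + 2) := Nat.cast_nonneg _
    set e := om ^ (2 * i + 2)
    set f := (Nat.fib (2 * i + 2) : ℝ)
    have b1 : 400 * e ≤ f := by nlinarith
    nlinarith
  · have e0 := pow_pos om_pos (2 * i + 1)
    have f0 : (0 : ℝ) < Nat.fib (2 * i + 1) := by exact_mod_cast Nat.fib_pos.2 (by omega)
    set e := om ^ (2 * i + 1)
    set f := (Nat.fib (2 * i + 1) : ℝ)
    rcases le_or_gt f (n' * e) with c | c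
    · nlinarith
    · have b1 : 400 * e ≤ f := by nlinarith
      nlinarith

lemma X_add (n i : ℕ) (K : ℤ) (ri rK : ℝ) (hi : (i : ℝ) = ri) (hK : (K : ℝ) = rK)
    (h1 : 0 ≤ X n + ri * goldenRatio - rK) (h2 : X n + ri * goldenRatio - rK < 1) :
    X (n + i) = X n + ri * goldenRatio - rK := by
  subst hi hK
  have : F (n + i) = F n + K := by
    unfold F
    rw [Int.floor_eq_iff]
    unfold X F at h1 h2
    push_cast
    constructor <;> linarith
  unfold X
  rw [this]
  push_cast
  ring

/-- the allowed third-order gaps -/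
def allowed : List ℕ := [3, 4, 5, 6, 7, 8, 10, 11, 13]

/-- local check -/
def chk (q : ℕ → Bool) : Bool :=
  !q 0 || allowed.any (fun g => q g && ((List.range g).filter q).length == 3)

open Classical in
/-- the third next element is at an allowed distance -/
def Target (p : ℕ → Prop) (n : ℕ) : Prop :=
  ∃ g ∈ allowed, p (n + g) ∧ Nat.count (fun i => p (n + i)) g = 3

open Classical in
lemma count_eq (p : ℕ → Prop) (n : ℕ) (q : ℕ → Bool) (g : ℕ)
    (h : ∀ i, i < g → (p (n + i) ↔ q i = true)) :
    Nat.count (fun i => p (n + i)) g = ((List.range g).filter q).length := by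
  induction g with
  | zero => simp
  | succ g ih =>
    rw [Nat.count_succ, ih fun i hi => h i (by omega), List.range_succ, List.filter_append,
      List.length_append]
    have := h g (by omega)
    by_cases c : q g = true
    · simp [c, this.2 c]
    · have c' : ¬ p (n + g) := fun h' => c (this.1 h')
      simp [c, c']

lemma target_of (p : ℕ → Prop) (n : ℕ) (q : ℕ → Bool)
    (h : ∀ i, i < 14 → (p (n + i) ↔ q i = true)) (hq : chk q = true) (h0 : p n) :
    Target p n := by
  have q0 : q 0 = true := (h 0 (by omega)).1 h0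
  simp only [chk, q0, Bool.not_true, Bool.false_or, List.any_eq_true, Bool.and_eq_true,
    beq_iff_eq] at hq
  obtain ⟨g, hg, h1, h2⟩ := hq
  have hg' : g < 14 := by
    simp only [allowed, List.mem_cons, List.not_mem_nil, or_false] at hg
    omega
  exact ⟨g, hg, (h g hg').2 h1, by rw [count_eq p n q g fun i hi => h i (by omega), h2]⟩

lemma prefix_lem (P : ℕ → Prop) (N : ℕ) (h : ∀ p, p + 1 < N → P (p + 1) → P p) :
    ∃ t, ∀ p, p < N → (P p ↔ p < t) := by
  induction N with
  | zero => exact ⟨0, fun p hp => by omega⟩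
  | succ N ih =>
    by_cases c : P N
    · refine ⟨N + 1, fun p hp => ⟨fun _ => hp, fun _ => ?_⟩⟩
      have : ∀ d, d ≤ N → P (N - d) := by
        intro d
        induction d with
        | zero => intro _; exact c
        | succ d ihd =>
          intro hd
          apply h _ (by omega)
          rw [show N - (d + 1) + 1 = N - d by omega]
          exact ihd (by omega)
      have := this (N - p) (by omega)
      rwa [show N - (N - p) = p by omega] at this
    · obtain ⟨t, ht⟩ := ih fun p hp => h p (by omega)
      refine ⟨min t N, fun p hp => ?_⟩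
      by_cases e : p = N
      · subst e; simp [c]
      · rw [ht p (by omega)]; omega

/-- global check for one rotation -/
def chkAll (o : List ℕ) (lo hi : ℕ) : Bool :=
  (List.range 14).all (fun i => o.idxOf i < 14 && o.getD (o.idxOf i) 0 == i && o.getD i 0 ≤ 13) &&
  (List.range 15).all (fun t => t ≤ lo || hi < t ||
    (chk (fun i => o.idxOf i < t) && chk (fun i => !(o.idxOf i < t))))

lemma window (n : ℕ) (hn : 400 ≤ n) (o : List ℕ) (lo hi : ℕ) (hc : chkAll o lo hi = true)
    (hl : lo < 14) (hh : hi < 14)
    (hy : ∀ p, p < 13 → X (n + o.getD p 0) + 1 / 30 ≤ X (n + o.getD (p + 1) 0))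
    (hlo : X (n + o.getD lo 0) ≤ 1 / 4) (hhi : 3 / 4 ≤ X (n + o.getD hi 0)) :
    ∃ q : ℕ → Bool, (∀ i, i < 14 → (PD (n + i) ↔ q i = true)) ∧ chk q = true ∧
      chk (fun i => !q i) = true := by
  simp only [chkAll, Bool.and_eq_true, List.all_eq_true, List.mem_range, decide_eq_true_eq,
    beq_iff_eq, Bool.or_eq_true] at hc
  obtain ⟨c1, c2⟩ := hc
  obtain ⟨t, ht⟩ := prefix_lem (fun p => PD (n + o.getD p 0)) 14 fun p hp h' => by
    have a1 := (c1 p (by omega)).2
    have a2 := (c1 (p + 1) (by omega)).2
    exact R2 _ _ (by omega) (by omega) (by omega) (by omega) (hy p (by omega)) h'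
  have t1 : lo < t := (ht lo hl).1 (R1a _ (by omega) hlo)
  have t2 : ¬ hi < t := fun h' => absurd (R1b _ ((ht hi hh).2 h')) (not_lt.2 hhi)
  have c3 := c2 t (by omega)
  refine ⟨fun i => o.idxOf i < t, fun i hi' => ?_, ?_, ?_⟩
  · have a := c1 i hi'
    have b := ht _ a.1.1
    rw [a.1.2] at b
    simpa using b
  · rcases c3 with (c | c) | c
    · omega
    · omega
    · exact c.1
  · rcases c3 with (c | c) | c
    · omega
    · omega
    · exact c.2

lemma case0 (n : ℕ) (hn : 400 ≤ n)
    (hhi : X n + 8 * goldenRatio - 12 < 1) :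
    ∃ q : ℕ → Bool, (∀ i, i < 14 → (PD (n + i) ↔ q i = true)) ∧ chk q = true ∧
      chk (fun i => !q i) = true := by
  have p1 := phi_lo
  have p2 := phi_hi
  have x0 := X_nonneg n
  have x1 := X_lt n
  have e0 := X_add n 0 0 0 0 (by norm_num) (by norm_num) (by linarith) (by linarith)
  have e1 := X_add n 1 1 1 1 (by norm_num) (by norm_num) (by linarith) (by linarith)
  have e2 := X_add n 2 3 2 3 (by norm_num) (by norm_num) (by linarith) (by linarith)
  have e3 := X_add n 3 4 3 4 (by norm_num) (by norm_num) (by linarith) (by linarith)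
  have e4 := X_add n 4 6 4 6 (by norm_num) (by norm_num) (by linarith) (by linarith)
  have e5 := X_add n 5 8 5 8 (by norm_num) (by norm_num) (by linarith) (by linarith)
  have e6 := X_add n 6 9 6 9 (by norm_num) (by norm_num) (by linarith) (by linarith)
  have e7 := X_add n 7 11 7 11 (by norm_num) (by norm_num) (by linarith) (by linarith)
  have e8 := X_add n 8 12 8 12 (by norm_num) (by norm_num) (by linarith) (by linarith)
  have e9 := X_add n 9 14 9 14 (by norm_num) (by norm_num) (by linarith) (by linarith)
  have e10 := X_add n 10 16 10 16 (by norm_num) (by norm_num) (by linarith) (by linarith)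
  have e11 := X_add n 11 17 11 17 (by norm_num) (by norm_num) (by linarith) (by linarith)
  have e12 := X_add n 12 19 12 19 (by norm_num) (by norm_num) (by linarith) (by linarith)
  have e13 := X_add n 13 21 13 21 (by norm_num) (by norm_num) (by linarith) (by linarith)
  refine window n hn [0, 13, 5, 10, 2, 7, 12, 4, 9, 1, 6, 11, 3, 8] 3 11 (by decide) (by norm_num) (by norm_num) ?_ ?_ ?_
  · intro p hp
    interval_cases p <;> simp only [List.getD_cons_succ, List.getD_cons_zero] <;> linarith
  · simp only [List.getD_cons_succ, List.getD_cons_zero]; linarith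
  · simp only [List.getD_cons_succ, List.getD_cons_zero]; linarith

lemma case1 (n : ℕ) (hn : 400 ≤ n)
    (hlo : 1 ≤ X n + 8 * goldenRatio - 12)
    (hhi : X n + 3 * goldenRatio - 4 < 1) :
    ∃ q : ℕ → Bool, (∀ i, i < 14 → (PD (n + i) ↔ q i = true)) ∧ chk q = true ∧
      chk (fun i => !q i) = true := by
  have p1 := phi_lo
  have p2 := phi_hi
  have x0 := X_nonneg n
  have x1 := X_lt n
  have e0 := X_add n 0 0 0 0 (by norm_num) (by norm_num) (by linarith) (by linarith)
  have e1 := X_add n 1 1 1 1 (by norm_num) (by norm_num) (by linarith) (by linarith)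
  have e2 := X_add n 2 3 2 3 (by norm_num) (by norm_num) (by linarith) (by linarith)
  have e3 := X_add n 3 4 3 4 (by norm_num) (by norm_num) (by linarith) (by linarith)
  have e4 := X_add n 4 6 4 6 (by norm_num) (by norm_num) (by linarith) (by linarith)
  have e5 := X_add n 5 8 5 8 (by norm_num) (by norm_num) (by linarith) (by linarith)
  have e6 := X_add n 6 9 6 9 (by norm_num) (by norm_num) (by linarith) (by linarith)
  have e7 := X_add n 7 11 7 11 (by norm_num) (by norm_num) (by linarith) (by linarith)
  have e8 := X_add n 8 13 8 13 (by norm_num) (by norm_num) (by linarith) (by linarith)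
  have e9 := X_add n 9 14 9 14 (by norm_num) (by norm_num) (by linarith) (by linarith)
  have e10 := X_add n 10 16 10 16 (by norm_num) (by norm_num) (by linarith) (by linarith)
  have e11 := X_add n 11 17 11 17 (by norm_num) (by norm_num) (by linarith) (by linarith)
  have e12 := X_add n 12 19 12 19 (by norm_num) (by norm_num) (by linarith) (by linarith)
  have e13 := X_add n 13 21 13 21 (by norm_num) (by norm_num) (by linarith) (by linarith)
  refine window n hn [8, 0, 13, 5, 10, 2, 7, 12, 4, 9, 1, 6, 11, 3] 3 11 (by decide) (by norm_num) (by norm_num) ?_ ?_ ?_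
  · intro p hp
    interval_cases p <;> simp only [List.getD_cons_succ, List.getD_cons_zero] <;> linarith
  · simp only [List.getD_cons_succ, List.getD_cons_zero]; linarith
  · simp only [List.getD_cons_succ, List.getD_cons_zero]; linarith

lemma case2 (n : ℕ) (hn : 400 ≤ n)
    (hlo : 1 ≤ X n + 3 * goldenRatio - 4)
    (hhi : X n + 11 * goldenRatio - 17 < 1) :
    ∃ q : ℕ → Bool, (∀ i, i < 14 → (PD (n + i) ↔ q i = true)) ∧ chk q = true ∧
      chk (fun i => !q i) = true := by
  have p1 := phi_lo
  have p2 := phi_hi
  have x0 := X_nonneg n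
  have x1 := X_lt n
  have e0 := X_add n 0 0 0 0 (by norm_num) (by norm_num) (by linarith) (by linarith)
  have e1 := X_add n 1 1 1 1 (by norm_num) (by norm_num) (by linarith) (by linarith)
  have e2 := X_add n 2 3 2 3 (by norm_num) (by norm_num) (by linarith) (by linarith)
  have e3 := X_add n 3 5 3 5 (by norm_num) (by norm_num) (by linarith) (by linarith)
  have e4 := X_add n 4 6 4 6 (by norm_num) (by norm_num) (by linarith) (by linarith)
  have e5 := X_add n 5 8 5 8 (by norm_num) (by norm_num) (by linarith) (by linarith)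
  have e6 := X_add n 6 9 6 9 (by norm_num) (by norm_num) (by linarith) (by linarith)
  have e7 := X_add n 7 11 7 11 (by norm_num) (by norm_num) (by linarith) (by linarith)
  have e8 := X_add n 8 13 8 13 (by norm_num) (by norm_num) (by linarith) (by linarith)
  have e9 := X_add n 9 14 9 14 (by norm_num) (by norm_num) (by linarith) (by linarith)
  have e10 := X_add n 10 16 10 16 (by norm_num) (by norm_num) (by linarith) (by linarith)
  have e11 := X_add n 11 17 11 17 (by norm_num) (by norm_num) (by linarith) (by linarith)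
  have e12 := X_add n 12 19 12 19 (by norm_num) (by norm_num) (by linarith) (by linarith)
  have e13 := X_add n 13 21 13 21 (by norm_num) (by norm_num) (by linarith) (by linarith)
  refine window n hn [3, 8, 0, 13, 5, 10, 2, 7, 12, 4, 9, 1, 6, 11] 3 11 (by decide) (by norm_num) (by norm_num) ?_ ?_ ?_
  · intro p hp
    interval_cases p <;> simp only [List.getD_cons_succ, List.getD_cons_zero] <;> linarith
  · simp only [List.getD_cons_succ, List.getD_cons_zero]; linarith
  · simp only [List.getD_cons_succ, List.getD_cons_zero]; linarith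

lemma case3 (n : ℕ) (hn : 400 ≤ n)
    (hlo : 1 ≤ X n + 11 * goldenRatio - 17)
    (hhi : X n + 6 * goldenRatio - 9 < 1) :
    ∃ q : ℕ → Bool, (∀ i, i < 14 → (PD (n + i) ↔ q i = true)) ∧ chk q = true ∧
      chk (fun i => !q i) = true := by
  have p1 := phi_lo
  have p2 := phi_hi
  have x0 := X_nonneg n
  have x1 := X_lt n
  have e0 := X_add n 0 0 0 0 (by norm_num) (by norm_num) (by linarith) (by linarith)
  have e1 := X_add n 1 1 1 1 (by norm_num) (by norm_num) (by linarith) (by linarith)
  have e2 := X_add n 2 3 2 3 (by norm_num) (by norm_num) (by linarith) (by linarith)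
  have e3 := X_add n 3 5 3 5 (by norm_num) (by norm_num) (by linarith) (by linarith)
  have e4 := X_add n 4 6 4 6 (by norm_num) (by norm_num) (by linarith) (by linarith)
  have e5 := X_add n 5 8 5 8 (by norm_num) (by norm_num) (by linarith) (by linarith)
  have e6 := X_add n 6 9 6 9 (by norm_num) (by norm_num) (by linarith) (by linarith)
  have e7 := X_add n 7 11 7 11 (by norm_num) (by norm_num) (by linarith) (by linarith)
  have e8 := X_add n 8 13 8 13 (by norm_num) (by norm_num) (by linarith) (by linarith)
  have e9 := X_add n 9 14 9 14 (by norm_num) (by norm_num) (by linarith) (by linarith)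
  have e10 := X_add n 10 16 10 16 (by norm_num) (by norm_num) (by linarith) (by linarith)
  have e11 := X_add n 11 18 11 18 (by norm_num) (by norm_num) (by linarith) (by linarith)
  have e12 := X_add n 12 19 12 19 (by norm_num) (by norm_num) (by linarith) (by linarith)
  have e13 := X_add n 13 21 13 21 (by norm_num) (by norm_num) (by linarith) (by linarith)
  refine window n hn [11, 3, 8, 0, 13, 5, 10, 2, 7, 12, 4, 9, 1, 6] 2 11 (by decide) (by norm_num) (by norm_num) ?_ ?_ ?_
  · intro p hp
    interval_cases p <;> simp only [List.getD_cons_succ, List.getD_cons_zero] <;> linarith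
  · simp only [List.getD_cons_succ, List.getD_cons_zero]; linarith
  · simp only [List.getD_cons_succ, List.getD_cons_zero]; linarith

lemma case4 (n : ℕ) (hn : 400 ≤ n)
    (hlo : 1 ≤ X n + 6 * goldenRatio - 9)
    (hhi : X n + 1 * goldenRatio - 1 < 1) :
    ∃ q : ℕ → Bool, (∀ i, i < 14 → (PD (n + i) ↔ q i = true)) ∧ chk q = true ∧
      chk (fun i => !q i) = true := by
  have p1 := phi_lo
  have p2 := phi_hi
  have x0 := X_nonneg n
  have x1 := X_lt n
  have e0 := X_add n 0 0 0 0 (by norm_num) (by norm_num) (by linarith) (by linarith)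
  have e1 := X_add n 1 1 1 1 (by norm_num) (by norm_num) (by linarith) (by linarith)
  have e2 := X_add n 2 3 2 3 (by norm_num) (by norm_num) (by linarith) (by linarith)
  have e3 := X_add n 3 5 3 5 (by norm_num) (by norm_num) (by linarith) (by linarith)
  have e4 := X_add n 4 6 4 6 (by norm_num) (by norm_num) (by linarith) (by linarith)
  have e5 := X_add n 5 8 5 8 (by norm_num) (by norm_num) (by linarith) (by linarith)
  have e6 := X_add n 6 10 6 10 (by norm_num) (by norm_num) (by linarith) (by linarith)
  have e7 := X_add n 7 11 7 11 (by norm_num) (by norm_num) (by linarith) (by linarith)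
  have e8 := X_add n 8 13 8 13 (by norm_num) (by norm_num) (by linarith) (by linarith)
  have e9 := X_add n 9 14 9 14 (by norm_num) (by norm_num) (by linarith) (by linarith)
  have e10 := X_add n 10 16 10 16 (by norm_num) (by norm_num) (by linarith) (by linarith)
  have e11 := X_add n 11 18 11 18 (by norm_num) (by norm_num) (by linarith) (by linarith)
  have e12 := X_add n 12 19 12 19 (by norm_num) (by norm_num) (by linarith) (by linarith)
  have e13 := X_add n 13 21 13 21 (by norm_num) (by norm_num) (by linarith) (by linarith)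
  refine window n hn [6, 11, 3, 8, 0, 13, 5, 10, 2, 7, 12, 4, 9, 1] 2 11 (by decide) (by norm_num) (by norm_num) ?_ ?_ ?_
  · intro p hp
    interval_cases p <;> simp only [List.getD_cons_succ, List.getD_cons_zero] <;> linarith
  · simp only [List.getD_cons_succ, List.getD_cons_zero]; linarith
  · simp only [List.getD_cons_succ, List.getD_cons_zero]; linarith

lemma case5 (n : ℕ) (hn : 400 ≤ n)
    (hlo : 1 ≤ X n + 1 * goldenRatio - 1)
    (hhi : X n + 9 * goldenRatio - 14 < 1) :
    ∃ q : ℕ → Bool, (∀ i, i < 14 → (PD (n + i) ↔ q i = true)) ∧ chk q = true ∧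
      chk (fun i => !q i) = true := by
  have p1 := phi_lo
  have p2 := phi_hi
  have x0 := X_nonneg n
  have x1 := X_lt n
  have e0 := X_add n 0 0 0 0 (by norm_num) (by norm_num) (by linarith) (by linarith)
  have e1 := X_add n 1 2 1 2 (by norm_num) (by norm_num) (by linarith) (by linarith)
  have e2 := X_add n 2 3 2 3 (by norm_num) (by norm_num) (by linarith) (by linarith)
  have e3 := X_add n 3 5 3 5 (by norm_num) (by norm_num) (by linarith) (by linarith)
  have e4 := X_add n 4 6 4 6 (by norm_num) (by norm_num) (by linarith) (by linarith)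
  have e5 := X_add n 5 8 5 8 (by norm_num) (by norm_num) (by linarith) (by linarith)
  have e6 := X_add n 6 10 6 10 (by norm_num) (by norm_num) (by linarith) (by linarith)
  have e7 := X_add n 7 11 7 11 (by norm_num) (by norm_num) (by linarith) (by linarith)
  have e8 := X_add n 8 13 8 13 (by norm_num) (by norm_num) (by linarith) (by linarith)
  have e9 := X_add n 9 14 9 14 (by norm_num) (by norm_num) (by linarith) (by linarith)
  have e10 := X_add n 10 16 10 16 (by norm_num) (by norm_num) (by linarith) (by linarith)
  have e11 := X_add n 11 18 11 18 (by norm_num) (by norm_num) (by linarith) (by linarith)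
  have e12 := X_add n 12 19 12 19 (by norm_num) (by norm_num) (by linarith) (by linarith)
  have e13 := X_add n 13 21 13 21 (by norm_num) (by norm_num) (by linarith) (by linarith)
  refine window n hn [1, 6, 11, 3, 8, 0, 13, 5, 10, 2, 7, 12, 4, 9] 2 11 (by decide) (by norm_num) (by norm_num) ?_ ?_ ?_
  · intro p hp
    interval_cases p <;> simp only [List.getD_cons_succ, List.getD_cons_zero] <;> linarith
  · simp only [List.getD_cons_succ, List.getD_cons_zero]; linarith
  · simp only [List.getD_cons_succ, List.getD_cons_zero]; linarith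

lemma case6 (n : ℕ) (hn : 400 ≤ n)
    (hlo : 1 ≤ X n + 9 * goldenRatio - 14)
    (hhi : X n + 4 * goldenRatio - 6 < 1) :
    ∃ q : ℕ → Bool, (∀ i, i < 14 → (PD (n + i) ↔ q i = true)) ∧ chk q = true ∧
      chk (fun i => !q i) = true := by
  have p1 := phi_lo
  have p2 := phi_hi
  have x0 := X_nonneg n
  have x1 := X_lt n
  have e0 := X_add n 0 0 0 0 (by norm_num) (by norm_num) (by linarith) (by linarith)
  have e1 := X_add n 1 2 1 2 (by norm_num) (by norm_num) (by linarith) (by linarith)
  have e2 := X_add n 2 3 2 3 (by norm_num) (by norm_num) (by linarith) (by linarith)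
  have e3 := X_add n 3 5 3 5 (by norm_num) (by norm_num) (by linarith) (by linarith)
  have e4 := X_add n 4 6 4 6 (by norm_num) (by norm_num) (by linarith) (by linarith)
  have e5 := X_add n 5 8 5 8 (by norm_num) (by norm_num) (by linarith) (by linarith)
  have e6 := X_add n 6 10 6 10 (by norm_num) (by norm_num) (by linarith) (by linarith)
  have e7 := X_add n 7 11 7 11 (by norm_num) (by norm_num) (by linarith) (by linarith)
  have e8 := X_add n 8 13 8 13 (by norm_num) (by norm_num) (by linarith) (by linarith)
  have e9 := X_add n 9 15 9 15 (by norm_num) (by norm_num) (by linarith) (by linarith)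
  have e10 := X_add n 10 16 10 16 (by norm_num) (by norm_num) (by linarith) (by linarith)
  have e11 := X_add n 11 18 11 18 (by norm_num) (by norm_num) (by linarith) (by linarith)
  have e12 := X_add n 12 19 12 19 (by norm_num) (by norm_num) (by linarith) (by linarith)
  have e13 := X_add n 13 21 13 21 (by norm_num) (by norm_num) (by linarith) (by linarith)
  refine window n hn [9, 1, 6, 11, 3, 8, 0, 13, 5, 10, 2, 7, 12, 4] 2 11 (by decide) (by norm_num) (by norm_num) ?_ ?_ ?_
  · intro p hp
    interval_cases p <;> simp only [List.getD_cons_succ, List.getD_cons_zero] <;> linarith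
  · simp only [List.getD_cons_succ, List.getD_cons_zero]; linarith
  · simp only [List.getD_cons_succ, List.getD_cons_zero]; linarith

lemma case7 (n : ℕ) (hn : 400 ≤ n)
    (hlo : 1 ≤ X n + 4 * goldenRatio - 6)
    (hhi : X n + 12 * goldenRatio - 19 < 1) :
    ∃ q : ℕ → Bool, (∀ i, i < 14 → (PD (n + i) ↔ q i = true)) ∧ chk q = true ∧
      chk (fun i => !q i) = true := by
  have p1 := phi_lo
  have p2 := phi_hi
  have x0 := X_nonneg n
  have x1 := X_lt n
  have e0 := X_add n 0 0 0 0 (by norm_num) (by norm_num) (by linarith) (by linarith)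
  have e1 := X_add n 1 2 1 2 (by norm_num) (by norm_num) (by linarith) (by linarith)
  have e2 := X_add n 2 3 2 3 (by norm_num) (by norm_num) (by linarith) (by linarith)
  have e3 := X_add n 3 5 3 5 (by norm_num) (by norm_num) (by linarith) (by linarith)
  have e4 := X_add n 4 7 4 7 (by norm_num) (by norm_num) (by linarith) (by linarith)
  have e5 := X_add n 5 8 5 8 (by norm_num) (by norm_num) (by linarith) (by linarith)
  have e6 := X_add n 6 10 6 10 (by norm_num) (by norm_num) (by linarith) (by linarith)
  have e7 := X_add n 7 11 7 11 (by norm_num) (by norm_num) (by linarith) (by linarith)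
  have e8 := X_add n 8 13 8 13 (by norm_num) (by norm_num) (by linarith) (by linarith)
  have e9 := X_add n 9 15 9 15 (by norm_num) (by norm_num) (by linarith) (by linarith)
  have e10 := X_add n 10 16 10 16 (by norm_num) (by norm_num) (by linarith) (by linarith)
  have e11 := X_add n 11 18 11 18 (by norm_num) (by norm_num) (by linarith) (by linarith)
  have e12 := X_add n 12 19 12 19 (by norm_num) (by norm_num) (by linarith) (by linarith)
  have e13 := X_add n 13 21 13 21 (by norm_num) (by norm_num) (by linarith) (by linarith)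
  refine window n hn [4, 9, 1, 6, 11, 3, 8, 0, 13, 5, 10, 2, 7, 12] 2 11 (by decide) (by norm_num) (by norm_num) ?_ ?_ ?_
  · intro p hp
    interval_cases p <;> simp only [List.getD_cons_succ, List.getD_cons_zero] <;> linarith
  · simp only [List.getD_cons_succ, List.getD_cons_zero]; linarith
  · simp only [List.getD_cons_succ, List.getD_cons_zero]; linarith

lemma case8 (n : ℕ) (hn : 400 ≤ n)
    (hlo : 1 ≤ X n + 12 * goldenRatio - 19)
    (hhi : X n + 7 * goldenRatio - 11 < 1) :
    ∃ q : ℕ → Bool, (∀ i, i < 14 → (PD (n + i) ↔ q i = true)) ∧ chk q = true ∧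
      chk (fun i => !q i) = true := by
  have p1 := phi_lo
  have p2 := phi_hi
  have x0 := X_nonneg n
  have x1 := X_lt n
  have e0 := X_add n 0 0 0 0 (by norm_num) (by norm_num) (by linarith) (by linarith)
  have e1 := X_add n 1 2 1 2 (by norm_num) (by norm_num) (by linarith) (by linarith)
  have e2 := X_add n 2 3 2 3 (by norm_num) (by norm_num) (by linarith) (by linarith)
  have e3 := X_add n 3 5 3 5 (by norm_num) (by norm_num) (by linarith) (by linarith)
  have e4 := X_add n 4 7 4 7 (by norm_num) (by norm_num) (by linarith) (by linarith)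
  have e5 := X_add n 5 8 5 8 (by norm_num) (by norm_num) (by linarith) (by linarith)
  have e6 := X_add n 6 10 6 10 (by norm_num) (by norm_num) (by linarith) (by linarith)
  have e7 := X_add n 7 11 7 11 (by norm_num) (by norm_num) (by linarith) (by linarith)
  have e8 := X_add n 8 13 8 13 (by norm_num) (by norm_num) (by linarith) (by linarith)
  have e9 := X_add n 9 15 9 15 (by norm_num) (by norm_num) (by linarith) (by linarith)
  have e10 := X_add n 10 16 10 16 (by norm_num) (by norm_num) (by linarith) (by linarith)
  have e11 := X_add n 11 18 11 18 (by norm_num) (by norm_num) (by linarith) (by linarith)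
  have e12 := X_add n 12 20 12 20 (by norm_num) (by norm_num) (by linarith) (by linarith)
  have e13 := X_add n 13 21 13 21 (by norm_num) (by norm_num) (by linarith) (by linarith)
  refine window n hn [12, 4, 9, 1, 6, 11, 3, 8, 0, 13, 5, 10, 2, 7] 2 11 (by decide) (by norm_num) (by norm_num) ?_ ?_ ?_
  · intro p hp
    interval_cases p <;> simp only [List.getD_cons_succ, List.getD_cons_zero] <;> linarith
  · simp only [List.getD_cons_succ, List.getD_cons_zero]; linarith
  · simp only [List.getD_cons_succ, List.getD_cons_zero]; linarith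

lemma case9 (n : ℕ) (hn : 400 ≤ n)
    (hlo : 1 ≤ X n + 7 * goldenRatio - 11)
    (hhi : X n + 2 * goldenRatio - 3 < 1) :
    ∃ q : ℕ → Bool, (∀ i, i < 14 → (PD (n + i) ↔ q i = true)) ∧ chk q = true ∧
      chk (fun i => !q i) = true := by
  have p1 := phi_lo
  have p2 := phi_hi
  have x0 := X_nonneg n
  have x1 := X_lt n
  have e0 := X_add n 0 0 0 0 (by norm_num) (by norm_num) (by linarith) (by linarith)
  have e1 := X_add n 1 2 1 2 (by norm_num) (by norm_num) (by linarith) (by linarith)
  have e2 := X_add n 2 3 2 3 (by norm_num) (by norm_num) (by linarith) (by linarith)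
  have e3 := X_add n 3 5 3 5 (by norm_num) (by norm_num) (by linarith) (by linarith)
  have e4 := X_add n 4 7 4 7 (by norm_num) (by norm_num) (by linarith) (by linarith)
  have e5 := X_add n 5 8 5 8 (by norm_num) (by norm_num) (by linarith) (by linarith)
  have e6 := X_add n 6 10 6 10 (by norm_num) (by norm_num) (by linarith) (by linarith)
  have e7 := X_add n 7 12 7 12 (by norm_num) (by norm_num) (by linarith) (by linarith)
  have e8 := X_add n 8 13 8 13 (by norm_num) (by norm_num) (by linarith) (by linarith)
  have e9 := X_add n 9 15 9 15 (by norm_num) (by norm_num) (by linarith) (by linarith)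
  have e10 := X_add n 10 16 10 16 (by norm_num) (by norm_num) (by linarith) (by linarith)
  have e11 := X_add n 11 18 11 18 (by norm_num) (by norm_num) (by linarith) (by linarith)
  have e12 := X_add n 12 20 12 20 (by norm_num) (by norm_num) (by linarith) (by linarith)
  have e13 := X_add n 13 21 13 21 (by norm_num) (by norm_num) (by linarith) (by linarith)
  refine window n hn [7, 12, 4, 9, 1, 6, 11, 3, 8, 0, 13, 5, 10, 2] 2 11 (by decide) (by norm_num) (by norm_num) ?_ ?_ ?_
  · intro p hp
    interval_cases p <;> simp only [List.getD_cons_succ, List.getD_cons_zero] <;> linarith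
  · simp only [List.getD_cons_succ, List.getD_cons_zero]; linarith
  · simp only [List.getD_cons_succ, List.getD_cons_zero]; linarith

lemma case10 (n : ℕ) (hn : 400 ≤ n)
    (hlo : 1 ≤ X n + 2 * goldenRatio - 3)
    (hhi : X n + 10 * goldenRatio - 16 < 1) :
    ∃ q : ℕ → Bool, (∀ i, i < 14 → (PD (n + i) ↔ q i = true)) ∧ chk q = true ∧
      chk (fun i => !q i) = true := by
  have p1 := phi_lo
  have p2 := phi_hi
  have x0 := X_nonneg n
  have x1 := X_lt n
  have e0 := X_add n 0 0 0 0 (by norm_num) (by norm_num) (by linarith) (by linarith)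
  have e1 := X_add n 1 2 1 2 (by norm_num) (by norm_num) (by linarith) (by linarith)
  have e2 := X_add n 2 4 2 4 (by norm_num) (by norm_num) (by linarith) (by linarith)
  have e3 := X_add n 3 5 3 5 (by norm_num) (by norm_num) (by linarith) (by linarith)
  have e4 := X_add n 4 7 4 7 (by norm_num) (by norm_num) (by linarith) (by linarith)
  have e5 := X_add n 5 8 5 8 (by norm_num) (by norm_num) (by linarith) (by linarith)
  have e6 := X_add n 6 10 6 10 (by norm_num) (by norm_num) (by linarith) (by linarith)
  have e7 := X_add n 7 12 7 12 (by norm_num) (by norm_num) (by linarith) (by linarith)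
  have e8 := X_add n 8 13 8 13 (by norm_num) (by norm_num) (by linarith) (by linarith)
  have e9 := X_add n 9 15 9 15 (by norm_num) (by norm_num) (by linarith) (by linarith)
  have e10 := X_add n 10 16 10 16 (by norm_num) (by norm_num) (by linarith) (by linarith)
  have e11 := X_add n 11 18 11 18 (by norm_num) (by norm_num) (by linarith) (by linarith)
  have e12 := X_add n 12 20 12 20 (by norm_num) (by norm_num) (by linarith) (by linarith)
  have e13 := X_add n 13 21 13 21 (by norm_num) (by norm_num) (by linarith) (by linarith)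
  refine window n hn [2, 7, 12, 4, 9, 1, 6, 11, 3, 8, 0, 13, 5, 10] 2 10 (by decide) (by norm_num) (by norm_num) ?_ ?_ ?_
  · intro p hp
    interval_cases p <;> simp only [List.getD_cons_succ, List.getD_cons_zero] <;> linarith
  · simp only [List.getD_cons_succ, List.getD_cons_zero]; linarith
  · simp only [List.getD_cons_succ, List.getD_cons_zero]; linarith

lemma case11 (n : ℕ) (hn : 400 ≤ n)
    (hlo : 1 ≤ X n + 10 * goldenRatio - 16)
    (hhi : X n + 5 * goldenRatio - 8 < 1) :
    ∃ q : ℕ → Bool, (∀ i, i < 14 → (PD (n + i) ↔ q i = true)) ∧ chk q = true ∧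
      chk (fun i => !q i) = true := by
  have p1 := phi_lo
  have p2 := phi_hi
  have x0 := X_nonneg n
  have x1 := X_lt n
  have e0 := X_add n 0 0 0 0 (by norm_num) (by norm_num) (by linarith) (by linarith)
  have e1 := X_add n 1 2 1 2 (by norm_num) (by norm_num) (by linarith) (by linarith)
  have e2 := X_add n 2 4 2 4 (by norm_num) (by norm_num) (by linarith) (by linarith)
  have e3 := X_add n 3 5 3 5 (by norm_num) (by norm_num) (by linarith) (by linarith)
  have e4 := X_add n 4 7 4 7 (by norm_num) (by norm_num) (by linarith) (by linarith)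
  have e5 := X_add n 5 8 5 8 (by norm_num) (by norm_num) (by linarith) (by linarith)
  have e6 := X_add n 6 10 6 10 (by norm_num) (by norm_num) (by linarith) (by linarith)
  have e7 := X_add n 7 12 7 12 (by norm_num) (by norm_num) (by linarith) (by linarith)
  have e8 := X_add n 8 13 8 13 (by norm_num) (by norm_num) (by linarith) (by linarith)
  have e9 := X_add n 9 15 9 15 (by norm_num) (by norm_num) (by linarith) (by linarith)
  have e10 := X_add n 10 17 10 17 (by norm_num) (by norm_num) (by linarith) (by linarith)
  have e11 := X_add n 11 18 11 18 (by norm_num) (by norm_num) (by linarith) (by linarith)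
  have e12 := X_add n 12 20 12 20 (by norm_num) (by norm_num) (by linarith) (by linarith)
  have e13 := X_add n 13 21 13 21 (by norm_num) (by norm_num) (by linarith) (by linarith)
  refine window n hn [10, 2, 7, 12, 4, 9, 1, 6, 11, 3, 8, 0, 13, 5] 2 10 (by decide) (by norm_num) (by norm_num) ?_ ?_ ?_
  · intro p hp
    interval_cases p <;> simp only [List.getD_cons_succ, List.getD_cons_zero] <;> linarith
  · simp only [List.getD_cons_succ, List.getD_cons_zero]; linarith
  · simp only [List.getD_cons_succ, List.getD_cons_zero]; linarith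

lemma case12 (n : ℕ) (hn : 400 ≤ n)
    (hlo : 1 ≤ X n + 5 * goldenRatio - 8)
    (hhi : X n + 13 * goldenRatio - 21 < 1) :
    ∃ q : ℕ → Bool, (∀ i, i < 14 → (PD (n + i) ↔ q i = true)) ∧ chk q = true ∧
      chk (fun i => !q i) = true := by
  have p1 := phi_lo
  have p2 := phi_hi
  have x0 := X_nonneg n
  have x1 := X_lt n
  have e0 := X_add n 0 0 0 0 (by norm_num) (by norm_num) (by linarith) (by linarith)
  have e1 := X_add n 1 2 1 2 (by norm_num) (by norm_num) (by linarith) (by linarith)
  have e2 := X_add n 2 4 2 4 (by norm_num) (by norm_num) (by linarith) (by linarith)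
  have e3 := X_add n 3 5 3 5 (by norm_num) (by norm_num) (by linarith) (by linarith)
  have e4 := X_add n 4 7 4 7 (by norm_num) (by norm_num) (by linarith) (by linarith)
  have e5 := X_add n 5 9 5 9 (by norm_num) (by norm_num) (by linarith) (by linarith)
  have e6 := X_add n 6 10 6 10 (by norm_num) (by norm_num) (by linarith) (by linarith)
  have e7 := X_add n 7 12 7 12 (by norm_num) (by norm_num) (by linarith) (by linarith)
  have e8 := X_add n 8 13 8 13 (by norm_num) (by norm_num) (by linarith) (by linarith)
  have e9 := X_add n 9 15 9 15 (by norm_num) (by norm_num) (by linarith) (by linarith)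
  have e10 := X_add n 10 17 10 17 (by norm_num) (by norm_num) (by linarith) (by linarith)
  have e11 := X_add n 11 18 11 18 (by norm_num) (by norm_num) (by linarith) (by linarith)
  have e12 := X_add n 12 20 12 20 (by norm_num) (by norm_num) (by linarith) (by linarith)
  have e13 := X_add n 13 21 13 21 (by norm_num) (by norm_num) (by linarith) (by linarith)
  refine window n hn [5, 10, 2, 7, 12, 4, 9, 1, 6, 11, 3, 8, 0, 13] 2 10 (by decide) (by norm_num) (by norm_num) ?_ ?_ ?_
  · intro p hp
    interval_cases p <;> simp only [List.getD_cons_succ, List.getD_cons_zero] <;> linarith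
  · simp only [List.getD_cons_succ, List.getD_cons_zero]; linarith
  · simp only [List.getD_cons_succ, List.getD_cons_zero]; linarith

lemma case13 (n : ℕ) (hn : 400 ≤ n)
    (hlo : 1 ≤ X n + 13 * goldenRatio - 21) :
    ∃ q : ℕ → Bool, (∀ i, i < 14 → (PD (n + i) ↔ q i = true)) ∧ chk q = true ∧
      chk (fun i => !q i) = true := by
  have p1 := phi_lo
  have p2 := phi_hi
  have x0 := X_nonneg n
  have x1 := X_lt n
  have e0 := X_add n 0 0 0 0 (by norm_num) (by norm_num) (by linarith) (by linarith)
  have e1 := X_add n 1 2 1 2 (by norm_num) (by norm_num) (by linarith) (by linarith)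
  have e2 := X_add n 2 4 2 4 (by norm_num) (by norm_num) (by linarith) (by linarith)
  have e3 := X_add n 3 5 3 5 (by norm_num) (by norm_num) (by linarith) (by linarith)
  have e4 := X_add n 4 7 4 7 (by norm_num) (by norm_num) (by linarith) (by linarith)
  have e5 := X_add n 5 9 5 9 (by norm_num) (by norm_num) (by linarith) (by linarith)
  have e6 := X_add n 6 10 6 10 (by norm_num) (by norm_num) (by linarith) (by linarith)
  have e7 := X_add n 7 12 7 12 (by norm_num) (by norm_num) (by linarith) (by linarith)
  have e8 := X_add n 8 13 8 13 (by norm_num) (by norm_num) (by linarith) (by linarith)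
  have e9 := X_add n 9 15 9 15 (by norm_num) (by norm_num) (by linarith) (by linarith)
  have e10 := X_add n 10 17 10 17 (by norm_num) (by norm_num) (by linarith) (by linarith)
  have e11 := X_add n 11 18 11 18 (by norm_num) (by norm_num) (by linarith) (by linarith)
  have e12 := X_add n 12 20 12 20 (by norm_num) (by norm_num) (by linarith) (by linarith)
  have e13 := X_add n 13 22 13 22 (by norm_num) (by norm_num) (by linarith) (by linarith)
  refine window n hn [13, 5, 10, 2, 7, 12, 4, 9, 1, 6, 11, 3, 8, 0] 3 10 (by decide) (by norm_num) (by norm_num) ?_ ?_ ?_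
  · intro p hp
    interval_cases p <;> simp only [List.getD_cons_succ, List.getD_cons_zero] <;> linarith
  · simp only [List.getD_cons_succ, List.getD_cons_zero]; linarith
  · simp only [List.getD_cons_succ, List.getD_cons_zero]; linarith

lemma big (n : ℕ) (hn : 400 ≤ n) :
    ∃ q : ℕ → Bool, (∀ i, i < 14 → (PD (n + i) ↔ q i = true)) ∧ chk q = true ∧
      chk (fun i => !q i) = true := by
  rcases lt_or_ge (X n + 8 * goldenRatio - 12) 1 with h0 | h0
  · exact case0 n hn h0
  rcases lt_or_ge (X n + 3 * goldenRatio - 4) 1 with h1 | h1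
  · exact case1 n hn h0 h1
  rcases lt_or_ge (X n + 11 * goldenRatio - 17) 1 with h2 | h2
  · exact case2 n hn h1 h2
  rcases lt_or_ge (X n + 6 * goldenRatio - 9) 1 with h3 | h3
  · exact case3 n hn h2 h3
  rcases lt_or_ge (X n + 1 * goldenRatio - 1) 1 with h4 | h4
  · exact case4 n hn h3 h4
  rcases lt_or_ge (X n + 9 * goldenRatio - 14) 1 with h5 | h5
  · exact case5 n hn h4 h5
  rcases lt_or_ge (X n + 4 * goldenRatio - 6) 1 with h6 | h6
  · exact case6 n hn h5 h6
  rcases lt_or_ge (X n + 12 * goldenRatio - 19) 1 with h7 | h7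
  · exact case7 n hn h6 h7
  rcases lt_or_ge (X n + 7 * goldenRatio - 11) 1 with h8 | h8
  · exact case8 n hn h7 h8
  rcases lt_or_ge (X n + 2 * goldenRatio - 3) 1 with h9 | h9
  · exact case9 n hn h8 h9
  rcases lt_or_ge (X n + 10 * goldenRatio - 16) 1 with h10 | h10
  · exact case10 n hn h9 h10
  rcases lt_or_ge (X n + 5 * goldenRatio - 8) 1 with h11 | h11
  · exact case11 n hn h10 h11
  rcases lt_or_ge (X n + 13 * goldenRatio - 21) 1 with h12 | h12
  · exact case12 n hn h11 h12
  exact case13 n hn h12

end Pool.Agent.H.MP_e2feb3_nt
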