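import Mathlib

set_option autoImplicit false

namespace Pool.Agent.H.MP_e2feb3_nt

/-- The `(a,b)`-Fibonacci walk: `w 1 = a`, `w 2 = b`, `w (k+2) = w (k+1) + w k` for `k ≥ 1`
(index `0` is unused). -/
def walk (a b : ℕ) : ℕ → ℕ
  | 0 => 0
  | 1 => a
  | 2 => b
  | k + 3 => walk a b (k + 2) + walk a b (k + 1)

/-- `s(n)`: the largest index `s ≥ 1` at which some walk with positive start values equals `n`. -/
noncomputable def sMax (n : ℕ) : ℕ :=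
  sSup {s : ℕ | 1 ≤ s ∧ ∃ a b : ℕ, 1 ≤ a ∧ 1 ≤ b ∧ walk a b s = n}

/-- Down-integers. -/
def IsDown (n : ℕ) : Prop :=
  2 ≤ n ∧ ∃ a b : ℕ, 1 ≤ a ∧ 1 ≤ b ∧ walk a b (sMax n) = n ∧
    (walk a b (sMax n + 1) : ℤ) = ⌊Real.goldenRatio * (n : ℝ)⌋

/-- Up-integers. -/
def IsUp (n : ℕ) : Prop :=
  2 ≤ n ∧ ∃ a b : ℕ, 1 ≤ a ∧ 1 ≤ b ∧ walk a b (sMax n) = n ∧
    (walk a b (sMax n + 1) : ℤ) = ⌈Real.goldenRatio * (n : ℝ)⌉

/-- The set of `l`-th order gaps `p_{k+l} - p_k` of the increasing enumeration of `p`. -/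
def gaps (p : ℕ → Prop) (l : ℕ) : Set ℕ := {g | ∃ k : ℕ, Nat.nth p (k + l) = Nat.nth p k + g}

end Pool.Agent.H.MP_e2feb3_nt
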