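import Pool.Agent.H.MP_e2feb3_nt.B

set_option autoImplicit false

namespace Pool.Agent.H.MP_e2feb3_nt

open Real

lemma B_int (n m : ℤ) (i : ℕ) :
    B n m (2 * i + 1) = Nat.fib (2 * i + 1) * n - Nat.fib (2 * i) * m ∧
    B n m (2 * i + 2) = Nat.fib (2 * i + 1) * m - Nat.fib (2 * i + 2) * n := by
  induction i with
  | zero => simp [B]
  | succ i ih =>
    obtain ⟨h1, h2⟩ := ih
    have f1 : (Nat.fib (2 * i + 2) : ℤ) = Nat.fib (2 * i) + Nat.fib (2 * i + 1) := by
      rw [Nat.fib_add_two]; push_cast; ring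
    have f2 : (Nat.fib (2 * i + 3) : ℤ) = Nat.fib (2 * i + 1) + Nat.fib (2 * i + 2) := by
      rw [show 2 * i + 3 = 2 * i + 1 + 2 by ring, Nat.fib_add_two]; push_cast; ring
    have f3 : (Nat.fib (2 * i + 4) : ℤ) = Nat.fib (2 * i + 2) + Nat.fib (2 * i + 3) := by
      rw [show 2 * i + 4 = 2 * i + 2 + 2 by ring, Nat.fib_add_two]; push_cast; ring
    have e1 : B n m (2 * i + 3) = B n m (2 * i + 1) - B n m (2 * i + 2) := rfl
    have e2 : B n m (2 * i + 4) = B n m (2 * i + 2) - B n m (2 * i + 3) := rfl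
    rw [show 2 * (i + 1) + 1 = 2 * i + 3 by ring, show 2 * (i + 1) + 2 = 2 * i + 4 by ring,
      show 2 * (i + 1) = 2 * i + 2 by ring, e2, e1, h1, h2, f3, f2, f1]
    constructor <;> ring

/-- computable floor -/
def Fc (n : ℕ) : ℕ := (n + Nat.sqrt (5 * n * n)) / 2

lemma F_eq (n : ℕ) : F n = Fc n := by
  unfold F Fc
  set q := Nat.sqrt (5 * n * n) with hq
  have h1 : q * q ≤ 5 * n * n := Nat.sqrt_le _
  have h2 : 5 * n * n < (q + 1) * (q + 1) := Nat.lt_succ_sqrt _
  have r1 : (q : ℝ) * q ≤ 5 * n * n := by exact_mod_cast h1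
  have r2 : (5 : ℝ) * n * n < (q + 1) * (q + 1) := by exact_mod_cast h2
  have s5 : √5 * √5 = 5 := Real.mul_self_sqrt (by norm_num)
  have s0 : (0 : ℝ) ≤ √5 * n := by positivity
  have q0 : (0 : ℝ) ≤ q := Nat.cast_nonneg _
  have a1 : (q : ℝ) ≤ √5 * n := by
    apply le_of_not_gt; intro hc; nlinarith
  have a2 : √5 * n < (q : ℝ) + 1 := by
    apply lt_of_not_ge; intro hc; nlinarith
  set k := (n + q) / 2 with hk
  have k1 : 2 * k ≤ n + q := by omega
  have k2 : n + q + 1 ≤ 2 * k + 2 := by omega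
  have k1' : (2 : ℝ) * k ≤ n + q := by exact_mod_cast k1
  have k2' : (n : ℝ) + q + 1 ≤ 2 * k + 2 := by exact_mod_cast k2
  rw [Int.floor_eq_iff]
  unfold goldenRatio
  push_cast
  constructor <;> linarith

/-- Fibonacci table -/
def tbl : List (ℕ × ℕ × ℕ) := [(1, 1, 2), (2, 3, 5), (5, 8, 13), (13, 21, 34), (34, 55, 89), (89, 144, 233), (233, 377, 610), (610, 987, 1597)]

/-- bit mask of small down-integers -/
def mask : ℕ := 960962801228850569943804534274113218934680682463430571051902230598582128963791567246447717604756306156034979151300760499959460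

/-- computable test -/
def isDb (n : ℕ) : Bool :=
  tbl.any (fun u => u.2.2 * n ≤ u.2.1 * (Fc n + 1) && u.2.1 * n < u.1 * Fc n)

lemma tbl_eq : tbl = (List.range 8).map
    (fun i => (Nat.fib (2 * i + 1), Nat.fib (2 * i + 2), Nat.fib (2 * i + 3))) := by
  decide +kernel

lemma small_chk : (List.range 420).all
    (fun n => n < 2 || (isDb n == mask.testBit n && 1597 * Fc n ≤ 2584 * n)) = true := by
  decide +kernel

lemma cond_iff (n i : ℕ) : (B n (F n + 1) (2 * i + 3) ≤ 0 ∧ 0 < B n (F n) (2 * i + 2)) ↔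
    (Nat.fib (2 * i + 3) * n ≤ Nat.fib (2 * i + 2) * (Fc n + 1) ∧
      Nat.fib (2 * i + 2) * n < Nat.fib (2 * i + 1) * Fc n) := by
  have h1 := (B_int n (F n + 1) (i + 1)).1
  have h2 := (B_int n (F n) i).2
  rw [show 2 * (i + 1) + 1 = 2 * i + 3 by ring, show 2 * (i + 1) = 2 * i + 2 by ring] at h1
  rw [h1, h2, F_eq, sub_nonpos, sub_pos]
  constructor
  · rintro ⟨a, b⟩; exact ⟨by exact_mod_cast a, by exact_mod_cast b⟩
  · rintro ⟨a, b⟩; exact ⟨by exact_mod_cast a, by exact_mod_cast b⟩

lemma small (n : ℕ) (h2 : 2 ≤ n) (hn : n < 420) : PD n ↔ mask.testBit n = true := by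
  have h := small_chk
  simp only [List.all_eq_true, List.mem_range, Bool.or_eq_true, decide_eq_true_eq,
    Bool.and_eq_true, beq_iff_eq] at h
  obtain ⟨a1, a2⟩ := (h n hn).resolve_left (by omega)
  rw [← a1, isDb, tbl_eq]
  simp only [List.any_map, List.any_eq_true, List.mem_range, Function.comp, Bool.and_eq_true,
    decide_eq_true_eq]
  constructor
  · rintro ⟨i, hi⟩
    refine ⟨i, ?_, (cond_iff n i).1 hi⟩
    by_contra hc
    have b1 := even_down n (by omega) i hi.2 (2 * 8 + 2) (by omega)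
    rw [(B_int n (F n) 8).2, F_eq] at b1
    have e1 : Nat.fib (2 * 8 + 1) = 1597 := by decide +kernel
    have e2 : Nat.fib (2 * 8 + 2) = 2584 := by decide +kernel
    rw [e1, e2] at b1
    omega
  · rintro ⟨i, -, hi⟩
    exact ⟨i, (cond_iff n i).2 hi⟩

lemma small_win : (List.range 400).all (fun n => n < 2 ||
    (chk (fun i => mask.testBit (n + i)) && chk (fun i => !mask.testBit (n + i)))) = true := by
  decide +kernel

lemma all_win (n : ℕ) (hn : 2 ≤ n) :
    ∃ q : ℕ → Bool, (∀ i, i < 14 → (PD (n + i) ↔ q i = true)) ∧ chk q = true ∧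
      chk (fun i => !q i) = true := by
  rcases le_or_gt 400 n with h | h
  · exact big n h
  · have hw := small_win
    simp only [List.all_eq_true, List.mem_range, Bool.or_eq_true, decide_eq_true_eq,
      Bool.and_eq_true] at hw
    obtain ⟨a1, a2⟩ := (hw n h).resolve_left (by omega)
    exact ⟨fun i => mask.testBit (n + i), fun i hi => small _ (by omega) (by omega), a1, a2⟩

lemma target_D (n : ℕ) (h : IsDown n) : Target IsDown n := by
  obtain ⟨q, h1, h2, -⟩ := all_win n h.1
  have := h.1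
  exact target_of IsDown n q (fun i hi => ((char (n + i) (by omega)).1).trans (h1 i hi)) h2 h

lemma target_U (n : ℕ) (h : IsUp n) : Target IsUp n := by
  obtain ⟨q, h1, -, h2⟩ := all_win n h.1
  have := h.1
  refine target_of IsUp n (fun i => !q i) (fun i hi => ?_) h2 h
  rw [(char (n + i) (by omega)).2, h1 i hi]
  simp

open Classical in
lemma gaps_eq (p : ℕ → Prop) (hT : ∀ n, p n → Target p n)
    (hW : ∀ g ∈ allowed, ∃ n, p n ∧ p (n + g) ∧ Nat.count (fun i => p (n + i)) g = 3) :
    gaps p 3 = {g | g ∈ allowed} := by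
  have hinf : (Set.ofPred p).Infinite := by
    apply Set.infinite_of_forall_exists_gt
    intro N
    induction N with
    | zero =>
      obtain ⟨n, -, h, -⟩ := hW 3 (by simp [allowed])
      exact ⟨n + 3, h, by omega⟩
    | succ N ih =>
      obtain ⟨n, hn, hlt⟩ := ih
      obtain ⟨g, hg, h, -⟩ := hT n hn
      simp only [allowed, List.mem_cons, List.not_mem_nil, or_false] at hg
      exact ⟨n + g, h, by omega⟩
  have key : ∀ n g, p n → p (n + g) → Nat.count (fun i => p (n + i)) g = 3 →
      Nat.nth p (Nat.count p n + 3) = n + g := by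
    intro n g _ h2 h3
    have := Nat.nth_count h2
    rw [Nat.count_add, h3] at this
    exact this
  ext g
  constructor
  · rintro ⟨k, hk⟩
    have h1 := Nat.nth_mem_of_infinite hinf k
    obtain ⟨g', hg', h2, h3⟩ := hT _ h1
    have := key _ _ h1 h2 h3
    rw [Nat.count_nth_of_infinite hinf, hk] at this
    have e : g = g' := by omega
    rw [e]; exact hg'
  · intro hg
    obtain ⟨n, h1, h2, h3⟩ := hW g hg
    exact ⟨Nat.count p n, by rw [key n g h1 h2 h3, Nat.nth_count h1]⟩

open Classical in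
lemma wit (p : ℕ → Prop) (q : ℕ → Bool) (h : ∀ n, 2 ≤ n → n < 420 → (p n ↔ q n = true))
    (n g : ℕ) (h1 : 2 ≤ n) (h2 : n + g < 420)
    (hc : (q n && q (n + g) && ((List.range g).filter (fun i => q (n + i))).length == 3) = true) :
    ∃ n, p n ∧ p (n + g) ∧ Nat.count (fun i => p (n + i)) g = 3 := by
  simp only [Bool.and_eq_true, beq_iff_eq] at hc
  refine ⟨n, (h n h1 (by omega)).2 hc.1.1, (h _ (by omega) h2).2 hc.1.2, ?_⟩
  rw [count_eq p n (fun i => q (n + i)) g fun i hi => h _ (by omega) (by omega), hc.2]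

theorem main : gaps IsDown 3 = {3, 4, 5, 6, 7, 8, 10, 11, 13} ∧
    gaps IsUp 3 = {3, 4, 5, 6, 7, 8, 10, 11, 13} := by
  have e : {g | g ∈ allowed} = ({3, 4, 5, 6, 7, 8, 10, 11, 13} : Set ℕ) := by
    ext g; simp [allowed]
  have hD : ∀ n, 2 ≤ n → n < 420 → (IsDown n ↔ mask.testBit n = true) :=
    fun n h1 h2 => ((char n h1).1).trans (small n h1 h2)
  have hU : ∀ n, 2 ≤ n → n < 420 → (IsUp n ↔ (!mask.testBit n) = true) := by
    intro n h1 h2
    rw [(char n h1).2, small n h1 h2]; simp
  rw [← e]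
  constructor
  · refine gaps_eq _ target_D fun g hg => ?_
    simp only [allowed, List.mem_cons, List.not_mem_nil, or_false] at hg
    rcases hg with rfl | rfl | rfl | rfl | rfl | rfl | rfl | rfl | rfl
    · exact wit _ _ hD 46 3 (by norm_num) (by norm_num) (by decide +kernel)
    · exact wit _ _ hD 9 4 (by norm_num) (by norm_num) (by decide +kernel)
    · exact wit _ _ hD 5 5 (by norm_num) (by norm_num) (by decide +kernel)
    · exact wit _ _ hD 12 6 (by norm_num) (by norm_num) (by decide +kernel)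
    · exact wit _ _ hD 2 7 (by norm_num) (by norm_num) (by decide +kernel)
    · exact wit _ _ hD 23 8 (by norm_num) (by norm_num) (by decide +kernel)
    · exact wit _ _ hD 13 10 (by norm_num) (by norm_num) (by decide +kernel)
    · exact wit _ _ hD 15 11 (by norm_num) (by norm_num) (by decide +kernel)
    · exact wit _ _ hD 107 13 (by norm_num) (by norm_num) (by decide +kernel)
  · refine gaps_eq _ target_U fun g hg => ?_
    simp only [allowed, List.mem_cons, List.not_mem_nil, or_false] at hg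
    rcases hg with rfl | rfl | rfl | rfl | rfl | rfl | rfl | rfl | rfl
    · exact wit _ _ hU 19 3 (by norm_num) (by norm_num) (by decide +kernel)
    · exact wit _ _ hU 16 4 (by norm_num) (by norm_num) (by decide +kernel)
    · exact wit _ _ hU 3 5 (by norm_num) (by norm_num) (by decide +kernel)
    · exact wit _ _ hU 11 6 (by norm_num) (by norm_num) (by decide +kernel)
    · exact wit _ _ hU 4 7 (by norm_num) (by norm_num) (by decide +kernel)
    · exact wit _ _ hU 6 8 (by norm_num) (by norm_num) (by decide +kernel)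
    · exact wit _ _ hU 40 10 (by norm_num) (by norm_num) (by decide +kernel)
    · exact wit _ _ hU 42 11 (by norm_num) (by norm_num) (by decide +kernel)
    · exact wit _ _ hU 291 13 (by norm_num) (by norm_num) (by decide +kernel)

end Pool.Agent.H.MP_e2feb3_nt
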